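import Pool.Agent.Helper5.SX.St

/-!
# Project SX (MP_7b75b3_co), module EXS
-/

set_option autoImplicit false

namespace Pool.Agent.Helper72.SX

open _root_.SX
open Finset
open scoped Classical

/-- EXS -/
theorem hEXS : StBFA → StEXS := by
  intro hBFA V _ A c y l hS
  obtain ⟨h1, -⟩ := hBFA V A c y l hS
  have e1 : ∑ x, exc A c y l x = ∑ m ∈ Mk A c, (A.N m).card * (kap A y l (A.b m) - 1) := by
    unfold exc
    rw [Finset.sum_comm' (t' := Mk A c) (s' := fun m => A.N m)]
    · apply sum_congr rfl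
      intro m _
      rw [sum_const, smul_eq_mul]
    · intro x m
      simp only [mem_univ, true_and, mem_filter]
      constructor
      · rintro ⟨a, b⟩
        exact ⟨A.symm _ _ a, b⟩
      · rintro ⟨a, b⟩
        exact ⟨A.symm _ _ a, b⟩
  have e2 : ∑ m ∈ Mk A c, kap A y l (A.b m) ≤ l - 1 := by
    unfold kap
    simp_rw [card_filter]
    rw [sum_comm]
    calc ∑ i ∈ Ico 1 l, ∑ m ∈ Mk A c, (if A.b (y i) = A.b m then 1 else 0)
        ≤ ∑ _i ∈ Ico 1 l, 1 := by
          apply sum_le_sum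
          intro i _
          rw [← card_filter, card_le_one]
          intro m hm m' hm'
          rw [mem_filter] at hm hm'
          exact h1 m hm.1 m' hm'.1 (hm.2.symm.trans hm'.2)
      _ = l - 1 := by
          rw [sum_const, smul_eq_mul, mul_one, Nat.card_Ico]
  rw [e1]
  calc ∑ m ∈ Mk A c, (A.N m).card * (kap A y l (A.b m) - 1)
      ≤ ∑ m ∈ Mk A c, A.D * kap A y l (A.b m) :=
        sum_le_sum (fun m _ => Nat.mul_le_mul (A.deg m) (Nat.sub_le _ _))
    _ = A.D * ∑ m ∈ Mk A c, kap A y l (A.b m) := by rw [mul_sum]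
    _ ≤ A.D * (l - 1) := Nat.mul_le_mul_left _ e2

end Pool.Agent.Helper72.SX
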